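import Mathlib

/-!
# MP_6f7bab_an: the separation growth rate of a subshift with an alphabet metric need not exist
-/

set_option autoImplicit false
open Filter Topology Set

namespace Pool.Agent.Results.MP_6f7bab_an.SepNoLimit

section defs

variable {A : Type} [MetricSpace A]

/-- The shift. -/
def shift (x : ℕ → A) : ℕ → A := fun n => x (n + 1)

/-- A (one-sided) subshift: nonempty, closed and forward invariant. -/
structure IsSubshift (X : Set (ℕ → A)) : Prop where
  nonempty : X.Nonempty
  closed : IsClosed X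
  inv : ∀ x ∈ X, shift x ∈ X

/-- `Δ(x,y)`, the first index `n` with `x_n ≠ y_n` (for `x ≠ y`). -/
noncomputable def firstDiff (x y : ℕ → A) : ℕ := sInf {n | x n ≠ y n}

open Classical in
/-- `D(x,y) = d(x_Δ, y_Δ) k^(-Δ)` for `x ≠ y` and `D(x,x) = 0`. -/
noncomputable def D (k : ℕ) (x y : ℕ → A) : ℝ :=
  if x = y then 0 else
    dist (x (firstDiff x y)) (y (firstDiff x y)) / (k : ℝ) ^ firstDiff x y

/-- `D` is a metric on `X`. -/
structure IsMetricOn (k : ℕ) (X : Set (ℕ → A)) : Prop where
  zero : ∀ x ∈ X, ∀ y ∈ X, D k x y = 0 ↔ x = y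
  symm : ∀ x ∈ X, ∀ y ∈ X, D k x y = D k y x
  triangle : ∀ x ∈ X, ∀ y ∈ X, ∀ z ∈ X, D k x z ≤ D k x y + D k y z

/-- `D_T(x,y) = max_{0 ≤ t < T} D(σ^t x, σ^t y)`. -/
noncomputable def DT (k T : ℕ) (x y : ℕ → A) : ℝ := ⨆ t : Fin T, D k (shift^[t] x) (shift^[t] y)

/-- The largest size of a set `E ⊆ X` with `D_T(x,y) > ε` for all distinct `x, y ∈ E`. -/
noncomputable def sep (k : ℕ) (X : Set (ℕ → A)) (ε : ℝ) (T : ℕ) : ℕ :=
  sSup {n | ∃ E : Finset (ℕ → A), ↑E ⊆ X ∧ (∀ x ∈ E, ∀ y ∈ E, x ≠ y → ε < DT k T x y) ∧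
    E.card = n}

/-- The property `(S_ε)`. -/
def PropS (k : ℕ) (X : Set (ℕ → A)) (ε : ℝ) : Prop :=
  liminf (fun T : ℕ => Real.log (sep k X ε T) / T) atTop =
    limsup (fun T : ℕ => Real.log (sep k X ε T) / T) atTop

end defs

/-! ### The alphabet -/

/-- the 3-subsets of a 12-set -/
abbrev Tri : Type := {s : Finset (Fin 12) // s.card = 3}

/-- the alphabet: two copies of the 3-subsets and a neutral letter -/
def A : Type := Option (Bool × Tri)

instance : Fintype A := inferInstanceAs (Fintype (Option (Bool × Tri)))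
instance : DecidableEq A := inferInstanceAs (DecidableEq (Option (Bool × Tri)))
instance : Inhabited A := ⟨(none : Option (Bool × Tri))⟩

/-- the neutral letter -/
def J : A := (none : Option (Bool × Tri))

/-- the letters of the two kinds -/
def L (b : Bool) (u : Tri) : A := (some (b, u) : Option (Bool × Tri))

/-- size of the intersection -/
def ii (u v : Tri) : ℕ := (u.1 ∩ v.1).card

/-- close letters -/
def close : Option (Bool × Tri) → Option (Bool × Tri) → Prop
  | some (false, u), some (false, v) => ii u v = 1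
  | some (true, u), some (true, v) => ii u v ≠ 1
  | _, _ => False

lemma ii_symm (u v : Tri) : ii u v = ii v u := by unfold ii; rw [Finset.inter_comm]

lemma ii_self (u : Tri) : ii u u = 3 := by unfold ii; rw [Finset.inter_self]; exact u.2

lemma close_symm (a b : Option (Bool × Tri)) : close a b ↔ close b a := by
  rcases a with _ | ⟨_ | _, u⟩ <;> rcases b with _ | ⟨_ | _, v⟩ <;>
    first
    | exact Iff.rfl
    | (simp only [close]; rw [ii_symm])

open Classical in
/-- the metric of the alphabet, with values `0, 1, 2` -/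
noncomputable def dd (a b : A) : ℝ := if a = b then 0 else if close a b then 1 else 2

lemma dd_le (a b : A) : dd a b ≤ 2 := by unfold dd; split_ifs <;> norm_num

lemma dd_ge {a b : A} (h : a ≠ b) : 1 ≤ dd a b := by
  unfold dd; rw [if_neg h]; split_ifs <;> norm_num

lemma dd_self (a : A) : dd a a = 0 := by unfold dd; rw [if_pos rfl]

noncomputable instance : MetricSpace A where
  dist := dd
  dist_self := dd_self
  dist_comm a b := by
    unfold dd
    by_cases h : a = b
    · rw [if_pos h, if_pos h.symm]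
    · rw [if_neg h, if_neg (Ne.symm h)]
      by_cases h2 : close a b
      · rw [if_pos h2, if_pos ((close_symm a b).1 h2)]
      · rw [if_neg h2, if_neg fun h3 => h2 ((close_symm a b).2 h3)]
  dist_triangle a b c := by
    by_cases h1 : a = b
    · subst h1; rw [dd_self]; linarith
    by_cases h2 : b = c
    · subst h2; rw [dd_self]; linarith
    linarith [dd_ge h1, dd_ge h2, dd_le a c]
  eq_of_dist_eq_zero := by
    intro a b h
    by_contra hne
    have := dd_ge hne
    change dd a b = 0 at h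
    linarith

lemma dist_def (a b : A) : dist a b = dd a b := rfl

/-- far letters -/
def far (a b : A) : Prop := a ≠ b ∧ ¬ close a b

lemma far_iff (a b : A) : far a b ↔ 1 < dist a b := by
  rw [dist_def]
  unfold far dd
  split_ifs with h1 h2
  · simp [h1]
  · simp [h1, h2]
  · simp [h1, h2]

/-! ### The metric `D` -/

lemma D_exists {k : ℕ} {x y : ℕ → A} (h : x ≠ y) : ∃ m, D k x y = dist (x m) (y m) / (k : ℝ) ^ m ∧
    x m ≠ y m ∧ ∀ i < m, x i = y i := by
  have hne : {n | x n ≠ y n}.Nonempty := Function.ne_iff.1 h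
  refine ⟨firstDiff x y, by unfold D; rw [if_neg h], Nat.sInf_mem hne, ?_⟩
  intro i hi
  exact not_not.1 (Nat.notMem_of_lt_sInf hi)

lemma D_self {k : ℕ} (x : ℕ → A) : D k x x = 0 := by simp [D]

lemma D_eq {k : ℕ} {x y : ℕ → A} {m : ℕ} (h1 : x m ≠ y m) (h2 : ∀ i < m, x i = y i) :
    D k x y = dist (x m) (y m) / (k : ℝ) ^ m := by
  obtain ⟨n, hn, e1, e2⟩ := D_exists (k := k) (x := x) (y := y) (fun h => h1 (by rw [h]))
  have : m = n := by
    rcases lt_trichotomy m n with h | h | h
    · exact absurd (e2 m h) h1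
    · exact h
    · exact absurd (h2 n h) e1
  rw [this]; exact hn

lemma D_metric (X : Set (ℕ → A)) : IsMetricOn 2 X where
  zero x _ y _ := by
    constructor
    · intro h
      by_contra hne
      obtain ⟨m, hm, h1, -⟩ := D_exists (k := 2) hne
      rw [h] at hm
      have : 0 < dist (x m) (y m) := dist_pos.2 h1
      have : 0 < dist (x m) (y m) / (2 : ℕ) ^ m := by positivity
      linarith
    · rintro rfl; exact D_self x
  symm x _ y _ := by
    by_cases h : x = y
    · rw [h]
    · obtain ⟨m, hm, h1, h2⟩ := D_exists (k := 2) h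
      rw [hm, D_eq (Ne.symm h1) (fun i hi => (h2 i hi).symm), dist_comm]
  triangle x _ y _ z _ := by
    have hnn : ∀ x y : ℕ → A, 0 ≤ D 2 x y := by
      intro x y
      unfold D
      split_ifs
      · exact le_rfl
      · positivity
    by_cases hxz : x = z
    · rw [hxz, D_self]; exact add_nonneg (hnn _ _) (hnn _ _)
    by_cases hxy : x = y
    · rw [hxy, D_self, zero_add]
    by_cases hyz : y = z
    · rw [hyz, D_self, add_zero]
    obtain ⟨a, ha, ha1, ha2⟩ := D_exists (k := 2) hxy
    obtain ⟨b, hb, hb1, hb2⟩ := D_exists (k := 2) hyz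
    obtain ⟨c, hc, hc1, hc2⟩ := D_exists (k := 2) hxz
    rcases lt_trichotomy a b with h | h | h
    · have : D 2 x z = D 2 x y := by
        rw [ha, D_eq (m := a)]
        · rw [hb2 a h]
        · rw [← hb2 a h]; exact ha1
        · intro i hi; rw [ha2 i hi, hb2 i (hi.trans h)]
      rw [this]
      linarith [hnn y z]
    · subst h
      have hac : a ≤ c := by
        by_contra hcon
        push Not at hcon
        exact hc1 (by rw [ha2 c hcon, hb2 c hcon])
      have e1 : 1 / (2 : ℝ) ^ a ≤ D 2 x y := by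
        rw [ha]
        push_cast
        exact div_le_div_of_nonneg_right (dd_ge ha1) (by positivity)
      have e2 : 1 / (2 : ℝ) ^ a ≤ D 2 y z := by
        rw [hb]
        push_cast
        exact div_le_div_of_nonneg_right (dd_ge hb1) (by positivity)
      have e3 : D 2 x z ≤ 2 / (2 : ℝ) ^ a := by
        rw [hc]
        push_cast
        exact div_le_div₀ (by norm_num) (dd_le _ _) (by positivity)
          (pow_le_pow_right₀ (by norm_num) hac)
      have : (2 : ℝ) / 2 ^ a = 1 / 2 ^ a + 1 / 2 ^ a := by ring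
      linarith
    · have : D 2 x z = D 2 y z := by
        rw [hb, D_eq (m := b)]
        · rw [ha2 b h]
        · rw [ha2 b h]; exact hb1
        · intro i hi; rw [ha2 i (hi.trans h), hb2 i hi]
      rw [this]
      linarith [hnn x y]

lemma shift_iter (t : ℕ) (x : ℕ → A) (n : ℕ) : shift^[t] x n = x (n + t) := by
  induction t generalizing n with
  | zero => rfl
  | succ t ih =>
    rw [Function.iterate_succ_apply']
    change shift^[t] x (n + 1) = _
    rw [ih]; congr 1; ring

lemma one_lt_D {x y : ℕ → A} : 1 < D 2 x y ↔ far (x 0) (y 0) := by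
  rw [far_iff]
  constructor
  · intro h
    have hne : x ≠ y := by
      rintro rfl
      rw [D_self] at h
      norm_num at h
    obtain ⟨m, hm, h1, h2⟩ := D_exists (k := 2) hne
    rcases Nat.eq_zero_or_pos m with h0 | h0
    · subst h0
      rw [hm] at h
      simpa using h
    · exfalso
      rw [hm] at h
      push_cast at h
      rw [lt_div_iff₀ (by positivity), one_mul] at h
      have e1 : (2 : ℝ) ^ 1 ≤ 2 ^ m := pow_le_pow_right₀ (by norm_num) h0
      have e2 : dist (x m) (y m) ≤ 2 := dd_le _ _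
      linarith
  · intro h
    have hne : x 0 ≠ y 0 := by
      intro he
      rw [he, dist_self] at h
      norm_num at h
    rw [D_eq hne (fun i hi => absurd hi (Nat.not_lt_zero _))]
    simpa using h

lemma one_lt_DT {T : ℕ} {x y : ℕ → A} : 1 < DT 2 T x y ↔ ∃ t < T, far (x t) (y t) := by
  unfold DT
  constructor
  · intro h
    rcases Nat.eq_zero_or_pos T with h0 | h0
    · subst h0
      rw [Real.iSup_of_isEmpty] at h
      norm_num at h
    · haveI : Nonempty (Fin T) := ⟨⟨0, h0⟩⟩
      obtain ⟨t, ht⟩ := exists_lt_of_lt_ciSup h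
      rw [one_lt_D, shift_iter, shift_iter, zero_add] at ht
      exact ⟨t, t.2, ht⟩
  · rintro ⟨t, ht, hf⟩
    refine lt_of_lt_of_le ?_ (le_ciSup (Finite.bddAbove_range _) ⟨t, ht⟩)
    rw [one_lt_D, shift_iter, shift_iter, zero_add]
    exact hf

/-! ### The rank bound (Haemers) -/

lemma rank_bound {K ι : Type} [Field K] [Fintype ι] [DecidableEq ι] (φ ψ : A → ι → K)
    (S : Set A) (hdiag : ∀ a ∈ S, ∑ i, φ a i * ψ a i ≠ 0)
    (hfar : ∀ a ∈ S, ∀ b ∈ S, far a b → ∑ i, φ a i * ψ b i = 0) (T : ℕ)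
    (E : Finset (ℕ → A)) (hE : ∀ x ∈ E, ∀ y ∈ E, x ≠ y → ∃ t < T, far (x t) (y t))
    (hS : ∀ x ∈ E, ∀ t < T, x t ∈ S) : E.card ≤ Fintype.card ι ^ T := by
  let Φ : E → ((Fin T → ι) → K) := fun x j => ∏ t : Fin T, φ (x.1 t) (j t)
  have hpair : ∀ x y : E, ∑ j : Fin T → ι, Φ x j * ∏ t : Fin T, ψ (y.1 t) (j t) =
      ∏ t : Fin T, ∑ i, φ (x.1 t) i * ψ (y.1 t) i := by
    intro x y
    rw [Finset.prod_univ_sum, Fintype.piFinset_univ]
    apply Finset.sum_congr rfl
    intro j _
    simp only [Φ]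
    rw [Finset.prod_mul_distrib]
  have hlin : LinearIndependent K Φ := by
    rw [Fintype.linearIndependent_iff]
    intro c hc y
    have h1 : ∑ x : E, c x * ∏ t : Fin T, ∑ i, φ (x.1 t) i * ψ (y.1 t) i = 0 := by
      have h2 : ∀ j, ∑ x : E, c x * Φ x j = 0 := by
        intro j
        have := congrFun hc j
        simpa using this
      calc ∑ x : E, c x * ∏ t : Fin T, ∑ i, φ (x.1 t) i * ψ (y.1 t) i
          = ∑ x : E, ∑ j : Fin T → ι, c x * (Φ x j * ∏ t : Fin T, ψ (y.1 t) (j t)) := by
            apply Finset.sum_congr rfl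
            intro x _
            rw [← hpair, Finset.mul_sum]
        _ = ∑ j : Fin T → ι, (∑ x : E, c x * Φ x j) * ∏ t : Fin T, ψ (y.1 t) (j t) := by
            rw [Finset.sum_comm]
            apply Finset.sum_congr rfl
            intro j _
            rw [Finset.sum_mul]
            apply Finset.sum_congr rfl
            intro x _
            ring
        _ = 0 := by simp only [h2, zero_mul, Finset.sum_const_zero]
    rw [Finset.sum_eq_single y] at h1
    · rcases mul_eq_zero.1 h1 with h | h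
      · exact h
      · exfalso
        rw [Finset.prod_eq_zero_iff] at h
        obtain ⟨t, -, ht⟩ := h
        exact hdiag _ (hS y.1 y.2 t t.2) ht
    · intro x _ hxy
      obtain ⟨t, ht, hf⟩ := hE x.1 x.2 y.1 y.2 (fun h => hxy (Subtype.ext h))
      rw [Finset.prod_eq_zero (Finset.mem_univ (⟨t, ht⟩ : Fin T)), mul_zero]
      exact hfar _ (hS x.1 x.2 t ht) _ (hS y.1 y.2 t ht) hf
    · intro h; exact absurd (Finset.mem_univ y) h
  have := hlin.fintype_card_le_finrank
  rw [Fintype.card_coe] at this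
  refine this.trans (le_of_eq ?_)
  rw [Module.finrank_fintype_fun_eq_card, Fintype.card_fun, Fintype.card_fin]

/-! ### The two kinds of letters -/

/-- letters of the first kind -/
def isG (a : A) : Prop := ∃ u, a = L false u

/-- letters of the second kind -/
def isH (a : A) : Prop := ∃ u, a = L true u

lemma A_cases (a : A) : a = J ∨ isG a ∨ isH a := by
  rcases a with _ | ⟨_ | _, u⟩
  · exact Or.inl rfl
  · exact Or.inr (Or.inl ⟨u, rfl⟩)
  · exact Or.inr (Or.inr ⟨u, rfl⟩)

lemma L_ne_J (b : Bool) (u : Tri) : L b u ≠ J := by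
  intro h
  exact Option.some_ne_none _ h

lemma L_inj {b b' : Bool} {u u' : Tri} (h : L b u = L b' u') : b = b' ∧ u = u' := by
  have := Option.some.inj h
  exact Prod.mk.inj this

lemma card_A : Fintype.card A = 441 := by
  have h1 : Fintype.card Tri = 220 := by
    rw [Fintype.card_finset_len, Fintype.card_fin]
    decide
  have h2 : Fintype.card (Option (Bool × Tri)) = 441 := by
    rw [Fintype.card_option, Fintype.card_prod, h1, Fintype.card_bool]
  exact h2

lemma card_Tri : Fintype.card Tri = 220 := by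
  rw [Fintype.card_finset_len, Fintype.card_fin]
  decide

lemma ii_eq_three {u v : Tri} (h : ii u v = 3) : u = v := by
  unfold ii at h
  have h1 : u.1 ∩ v.1 = u.1 := Finset.eq_of_subset_of_card_le Finset.inter_subset_left
    (by rw [h, u.2])
  have h2 : u.1 ∩ v.1 = v.1 := Finset.eq_of_subset_of_card_le Finset.inter_subset_right
    (by rw [h, v.2])
  exact Subtype.ext (h1.symm.trans h2)

lemma ii_le (u v : Tri) : ii u v ≤ 3 := by
  unfold ii
  exact (Finset.card_le_card Finset.inter_subset_left).trans u.2.le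

lemma ind_mul {K : Type} [Field K] (u v : Tri) :
    ∑ i : Fin 12, (if i ∈ u.1 then (1 : K) else 0) * (if i ∈ v.1 then (1 : K) else 0) = ii u v := by
  unfold ii
  rw [Finset.card_eq_sum_ones, Nat.cast_sum, ← Finset.sum_filter_add_sum_filter_not Finset.univ
    (fun i => i ∈ u.1 ∩ v.1)]
  rw [Finset.sum_eq_zero (s := Finset.filter (fun i => ¬ i ∈ u.1 ∩ v.1) Finset.univ), add_zero]
  · have : Finset.filter (fun i => i ∈ u.1 ∩ v.1) Finset.univ = u.1 ∩ v.1 := by
      ext i; simp
    rw [this]
    apply Finset.sum_congr rfl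
    intro i hi
    rw [Finset.mem_inter] at hi
    rw [if_pos hi.1, if_pos hi.2]
    simp
  · intro i hi
    rw [Finset.mem_filter, Finset.mem_inter] at hi
    by_cases h1 : i ∈ u.1
    · rw [if_neg (fun h2 => hi.2 ⟨h1, h2⟩), mul_zero]
    · rw [if_neg h1, zero_mul]

lemma z3 : ((3 : ℕ) : ZMod 2) = 1 := by decide

lemma z2 : ((2 : ℕ) : ZMod 2) = 0 := by decide

/-- the vectors of the first kind -/
def φ₁ : A → Option (Fin 12) → ZMod 2
  | none, none => 1
  | none, some _ => 0
  | some _, none => 0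
  | some (_, u), some i => if i ∈ u.1 then 1 else 0

lemma bound₁ (T : ℕ) (E : Finset (ℕ → A))
    (hE : ∀ x ∈ E, ∀ y ∈ E, x ≠ y → ∃ t < T, far (x t) (y t))
    (hS : ∀ x ∈ E, ∀ t < T, ¬ isH (x t)) : E.card ≤ 13 ^ T := by
  have h13 : Fintype.card (Option (Fin 12)) = 13 := by simp
  rw [← h13]
  haveI : Fact (Nat.Prime 2) := ⟨Nat.prime_two⟩
  refine rank_bound (K := ZMod 2) φ₁ φ₁ {a | ¬ isH a} ?_ ?_ T E hE hS
  · intro a ha
    rw [Fintype.sum_option]
    rcases A_cases a with rfl | ⟨u, rfl⟩ | h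
    · have : ∀ i : Fin 12, φ₁ J (some i) = 0 := fun i => rfl
      have h2 : φ₁ J none = 1 := rfl
      simp only [this, h2]
      simp
    · have h1 : ∀ i : Fin 12, φ₁ (L false u) (some i) = if i ∈ u.1 then 1 else 0 := fun i => rfl
      have h2 : φ₁ (L false u) none = 0 := rfl
      simp only [h1, h2]
      rw [ind_mul, ii_self]
      have h3 : ((3 : ℕ) : ZMod 2) = 1 := z3
      rw [h3]
      simp
    · exact absurd h ha
  · intro a ha b hb hf
    rw [Fintype.sum_option]
    have hJ : ∀ i : Fin 12, φ₁ J (some i) = 0 := fun i => rfl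
    have hJ2 : φ₁ J none = 1 := rfl
    have h1 : ∀ (u : Tri) (i : Fin 12), φ₁ (L false u) (some i) = if i ∈ u.1 then 1 else 0 :=
      fun u i => rfl
    have h2 : ∀ u : Tri, φ₁ (L false u) none = 0 := fun u => rfl
    rcases A_cases a with rfl | ⟨u, rfl⟩ | h
    · rcases A_cases b with rfl | ⟨v, rfl⟩ | h
      · exact absurd rfl hf.1
      · simp [hJ, h2]
      · exact absurd h hb
    · rcases A_cases b with rfl | ⟨v, rfl⟩ | h
      · simp [hJ, h2]
      · simp only [h1, h2]
        rw [ind_mul]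
        have h3 : ii u v ≠ 1 := hf.2
        have h4 : ii u v ≠ 3 := fun h => hf.1 (by rw [ii_eq_three h])
        have h5 := ii_le u v
        interval_cases ii u v
        · simp
        · exact absurd rfl h3
        · have h6 : ((2 : ℕ) : ZMod 2) = 0 := z2
          rw [h6]
          simp
        · exact absurd rfl h4
      · exact absurd h hb
    · exact absurd h ha

/-- the vectors of the second kind -/
def φ₂ (c : ℚ) : A → Option (Option (Fin 12)) → ℚ
  | none, none => 1
  | none, some _ => 0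
  | some _, none => 0
  | some _, some none => c
  | some (_, u), some (some i) => if i ∈ u.1 then 1 else 0

lemma bound₂ (T : ℕ) (E : Finset (ℕ → A))
    (hE : ∀ x ∈ E, ∀ y ∈ E, x ≠ y → ∃ t < T, far (x t) (y t))
    (hS : ∀ x ∈ E, ∀ t < T, ¬ isG (x t)) : E.card ≤ 14 ^ T := by
  have h14 : Fintype.card (Option (Option (Fin 12))) = 14 := by simp
  rw [← h14]
  have hJ : ∀ c i, φ₂ c J (some i) = 0 := fun c i => rfl
  have hJ2 : ∀ c, φ₂ c J none = 1 := fun c => rfl
  have h1 : ∀ c (u : Tri) (i : Fin 12), φ₂ c (L true u) (some (some i)) =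
    if i ∈ u.1 then 1 else 0 := fun c u i => rfl
  have h2 : ∀ c (u : Tri), φ₂ c (L true u) (some none) = c := fun c u => rfl
  have h3 : ∀ c (u : Tri), φ₂ c (L true u) none = 0 := fun c u => rfl
  refine rank_bound (K := ℚ) (φ₂ 1) (φ₂ (-1)) {a | ¬ isG a} ?_ ?_ T E hE hS
  · intro a ha
    rw [Fintype.sum_option]
    rcases A_cases a with rfl | h | ⟨u, rfl⟩
    · simp [hJ, hJ2]
    · exact absurd h ha
    · rw [Fintype.sum_option]
      simp only [h1, h2, h3]
      rw [ind_mul, ii_self]
      norm_num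
  · intro a ha b hb hf
    rw [Fintype.sum_option]
    rcases A_cases a with rfl | h | ⟨u, rfl⟩
    · rcases A_cases b with rfl | h | ⟨v, rfl⟩
      · exact absurd rfl hf.1
      · exact absurd h hb
      · simp [hJ, h3]
    · exact absurd h ha
    · rcases A_cases b with rfl | h | ⟨v, rfl⟩
      · simp [hJ, h3]
      · exact absurd h hb
      · rw [Fintype.sum_option]
        simp only [h1, h2, h3]
        rw [ind_mul]
        have h4 : ¬ (ii u v ≠ 1) := hf.2
        rw [not_not] at h4
        rw [h4]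
        norm_num

/-! ### The subshift -/

/-- the lengths of the gaps -/
def mm (k : ℕ) : ℕ := 64 ^ (2 * k)

/-- the lengths of the blocks -/
def nk (k : ℕ) : ℕ := 64 ^ (2 * k + 1)

/-- the widths -/
def wk (k : ℕ) : ℕ := 2 * nk k + mm k

lemma mm_lt {k k' : ℕ} (h : mm k < mm k') : k < k' := by
  by_contra hcon
  push Not at hcon
  have : mm k' ≤ mm k := Nat.pow_le_pow_right (by norm_num) (by omega)
  omega

lemma wk_mono {k k' : ℕ} (h : k ≤ k') : wk k ≤ wk k' := by
  unfold wk nk mm
  have h1 : (64 : ℕ) ^ (2 * k + 1) ≤ 64 ^ (2 * k' + 1) := Nat.pow_le_pow_right (by norm_num) (by omega)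
  have h2 : (64 : ℕ) ^ (2 * k) ≤ 64 ^ (2 * k') := Nat.pow_le_pow_right (by norm_num) (by omega)
  omega

/-- the subshift -/
def X : Set (ℕ → A) := {x | ∀ i j k l l' : ℕ, isG (x i) → isH (x j) → j < i + mm (k + 1) →
  x l ≠ J → x l' ≠ J → l' < l + wk k}

lemma X_subshift : IsSubshift X where
  nonempty := ⟨fun _ => J, fun i j k l l' h => by
    obtain ⟨u, hu⟩ := h
    exact absurd hu.symm (L_ne_J _ _)⟩
  closed := by
    have hX : X = ⋂ i, ⋂ j, ⋂ k, ⋂ l, ⋂ l', {x : ℕ → A | isG (x i) → isH (x j) →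
        j < i + mm (k + 1) → x l ≠ J → x l' ≠ J → l' < l + wk k} := by
      ext x
      simp only [X, mem_setOf_eq, mem_iInter]
    rw [hX]
    have hop : ∀ (i : ℕ) (S : Set A), IsOpen {x : ℕ → A | x i ∈ S} := fun i S =>
      (isOpen_discrete S).preimage (continuous_apply i)
    refine isClosed_iInter fun i => isClosed_iInter fun j => isClosed_iInter fun k =>
      isClosed_iInter fun l => isClosed_iInter fun l' => ?_
    exact isClosed_imp (hop i {a | isG a}) (isClosed_imp (hop j {a | isH a})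
      (isClosed_imp isOpen_const (isClosed_imp (hop l {a | a ≠ J})
      (isClosed_imp (hop l' {a | a ≠ J}) isClosed_const))))
  inv := by
    intro x hx i j k l l' h1 h2 h3 h4 h5
    have := hx (i + 1) (j + 1) k (l + 1) (l' + 1) h1 h2 (by omega) h4 h5
    omega

/-- the words with high separation -/
def wd (k : ℕ) (v : Fin (nk k) → Tri) : ℕ → A := fun t =>
  if h : t < nk k then L false (v ⟨t, h⟩)
  else if h : nk k + mm k ≤ t ∧ t < wk k then
    L true (v ⟨t - (nk k + mm k), by have := h.2; unfold wk at this; omega⟩)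
  else J

lemma wd_mem (k : ℕ) (v : Fin (nk k) → Tri) : wd k v ∈ X := by
  rintro i j k' l l' ⟨u, hu⟩ ⟨u', hu'⟩ h3 h4 h5
  have hi : i < nk k := by
    unfold wd at hu
    split_ifs at hu with a b
    · exact a
    · exact absurd (L_inj hu).1 (by decide)
    · exact absurd hu.symm (L_ne_J _ _)
  have hj : nk k + mm k ≤ j := by
    unfold wd at hu'
    split_ifs at hu' with a b
    · exact absurd (L_inj hu').1 (by decide)
    · exact b.1
    · exact absurd hu'.symm (L_ne_J _ _)
  have hl : l' < wk k := by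
    unfold wd at h5
    split_ifs at h5 with a b
    · unfold wk; omega
    · exact b.2
    · exact absurd rfl h5
  have hk : k < k' + 1 := mm_lt (by omega)
  have := wk_mono (Nat.lt_succ_iff.1 hk)
  omega

lemma wd_far {k : ℕ} {v v' : Fin (nk k) → Tri} (h : v ≠ v') :
    ∃ t < wk k, far (wd k v t) (wd k v' t) := by
  obtain ⟨i, hi⟩ := Function.ne_iff.1 h
  by_cases h1 : ii (v i) (v' i) = 1
  · refine ⟨nk k + mm k + i, by unfold wk; have := i.2; omega, ?_⟩
    have e : ∀ v : Fin (nk k) → Tri, wd k v (nk k + mm k + i) = L true (v i) := by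
      intro v
      unfold wd
      rw [dif_neg (by omega), dif_pos ⟨by omega, by unfold wk; have := i.2; omega⟩]
      congr 2
      apply Fin.ext
      simp
    rw [e, e]
    refine ⟨fun he => hi (L_inj he).2, ?_⟩
    change ¬ (ii (v i) (v' i) ≠ 1)
    exact not_not.2 h1
  · refine ⟨i, by unfold wk; have := i.2; omega, ?_⟩
    have e : ∀ v : Fin (nk k) → Tri, wd k v i = L false (v i) := by
      intro v
      unfold wd
      rw [dif_pos i.2]
    rw [e, e]
    refine ⟨fun he => hi (L_inj he).2, ?_⟩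
    exact h1

/-- the set of the definition of `sep` -/
def SS (T : ℕ) : Set ℕ := {n | ∃ E : Finset (ℕ → A), ↑E ⊆ X ∧
  (∀ x ∈ E, ∀ y ∈ E, x ≠ y → 1 < DT 2 T x y) ∧ E.card = n}

lemma sep_eq (T : ℕ) : sep 2 X 1 T = sSup (SS T) := rfl

lemma SS_le {T n : ℕ} (h : n ∈ SS T) : n ≤ 441 ^ T := by
  obtain ⟨E, -, h2, rfl⟩ := h
  have : Fintype.card (Fin T → A) = 441 ^ T := by
    rw [Fintype.card_fun, Fintype.card_fin, card_A]
  rw [← this, ← Finset.card_univ]
  refine Finset.card_le_card_of_injOn (fun x (t : Fin T) => x t) (fun _ _ => Finset.mem_coe.2 (Finset.mem_univ _)) ?_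
  intro x hx y hy hxy
  by_contra hne
  obtain ⟨t, ht, hf⟩ := one_lt_DT.1 (h2 x hx y hy hne)
  exact hf.1 (congrFun hxy ⟨t, ht⟩)

lemma SS_bdd (T : ℕ) : BddAbove (SS T) := ⟨441 ^ T, fun _ h => SS_le h⟩

lemma SS_ne (T : ℕ) : (SS T).Nonempty := ⟨0, ∅, by simp, by simp, rfl⟩

lemma sep_le_pow (T : ℕ) : sep 2 X 1 T ≤ 441 ^ T := by
  rw [sep_eq]; exact csSup_le (SS_ne T) fun _ h => SS_le h

lemma le_sep (k : ℕ) : 220 ^ nk k ≤ sep 2 X 1 (wk k) := by
  classical
  rw [sep_eq]
  apply le_csSup (SS_bdd _)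
  refine ⟨Finset.univ.image (wd k), ?_, ?_, ?_⟩
  · intro x hx
    rw [Finset.coe_image] at hx
    obtain ⟨v, -, rfl⟩ := hx
    exact wd_mem k v
  · intro x hx y hy hne
    obtain ⟨v, -, rfl⟩ := Finset.mem_image.1 hx
    obtain ⟨v', -, rfl⟩ := Finset.mem_image.1 hy
    rw [one_lt_DT]
    exact wd_far fun h => hne (by rw [h])
  · rw [Finset.card_image_of_injective, Finset.card_univ, Fintype.card_fun, card_Tri,
      Fintype.card_fin]
    intro v v' h
    by_contra hne
    obtain ⟨t, -, hf⟩ := wd_far hne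
    exact hf.1 (congrFun h t)

lemma sep_le (k : ℕ) : sep 2 X 1 (mm (k + 1)) ≤ (mm (k + 1) + 2) * 14 ^ mm (k + 1) := by
  classical
  rw [sep_eq]
  apply csSup_le (SS_ne _)
  rintro _ ⟨E, hEX, hE, rfl⟩
  set T := mm (k + 1) with hT
  have hfar : ∀ x ∈ E, ∀ y ∈ E, x ≠ y → ∃ t < T, far (x t) (y t) := fun x hx y hy hne =>
    one_lt_DT.1 (hE x hx y hy hne)
  set E₁ := E.filter fun x => ∀ t < T, ¬ isH (x t) with hE₁
  set E₂ := E.filter fun x => ∀ t < T, ¬ isG (x t) with hE₂
  set E₃ := E.filter fun x => (∃ t < T, isG (x t)) ∧ ∃ t < T, isH (x t) with hE₃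
  have hcov : E ⊆ E₁ ∪ E₂ ∪ E₃ := by
    intro x hx
    rw [Finset.mem_union, Finset.mem_union]
    by_cases h1 : ∀ t < T, ¬ isH (x t)
    · exact Or.inl (Or.inl (Finset.mem_filter.2 ⟨hx, h1⟩))
    · by_cases h2 : ∀ t < T, ¬ isG (x t)
      · exact Or.inl (Or.inr (Finset.mem_filter.2 ⟨hx, h2⟩))
      · push Not at h1 h2
        exact Or.inr (Finset.mem_filter.2 ⟨hx, h2, h1⟩)
  have b1 : E₁.card ≤ 13 ^ T := bound₁ T E₁
    (fun x hx y hy => hfar x (Finset.mem_filter.1 hx).1 y (Finset.mem_filter.1 hy).1)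
    fun x hx => (Finset.mem_filter.1 hx).2
  have b2 : E₂.card ≤ 14 ^ T := bound₂ T E₂
    (fun x hx y hy => hfar x (Finset.mem_filter.1 hx).1 y (Finset.mem_filter.1 hy).1)
    fun x hx => (Finset.mem_filter.1 hx).2
  have b3 : E₃.card ≤ T * 441 ^ wk k := by
    -- first letter of the support
    have hsup : ∀ x ∈ E₃, ∃ s < T, x s ≠ J ∧ (∀ t < s, x t = J) ∧ ∀ t, s + wk k ≤ t → x t = J := by
      intro x hx
      obtain ⟨hxE, ⟨i, hi, hG⟩, ⟨j, hj, hH⟩⟩ := Finset.mem_filter.1 hx
      have hex : ∃ s, x s ≠ J := by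
        obtain ⟨u, hu⟩ := hG
        exact ⟨i, by rw [hu]; exact L_ne_J _ _⟩
      have hi' : x i ≠ J := by
        obtain ⟨u, hu⟩ := hG
        rw [hu]; exact L_ne_J _ _
      refine ⟨Nat.find hex, (Nat.find_min' hex hi').trans_lt hi, Nat.find_spec hex,
        fun t ht => not_not.1 (Nat.find_min hex ht), fun t ht => ?_⟩
      by_contra hne
      have := hEX hxE i j k (Nat.find hex) t hG hH (by omega) (Nat.find_spec hex) hne
      omega
    have hcard : ((Finset.range T) ×ˢ (Finset.univ : Finset (Fin (wk k) → A))).card =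
        T * 441 ^ wk k := by
      rw [Finset.card_product, Finset.card_range, Finset.card_univ, Fintype.card_fun,
        Fintype.card_fin, card_A]
    rw [← hcard]
    let st : (ℕ → A) → ℕ := fun x => if h : ∃ s, x s ≠ J then Nat.find h else 0
    have hst : ∀ x ∈ E₃, st x < T ∧ (∀ t < st x, x t = J) ∧ ∀ t, st x + wk k ≤ t → x t = J := by
      intro x hx
      obtain ⟨s, hs, h1, h2, h3⟩ := hsup x hx
      have hex : ∃ s, x s ≠ J := ⟨s, h1⟩
      have : st x = s := by
        simp only [st]
        rw [dif_pos hex, Nat.find_eq_iff]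
        exact ⟨h1, fun n hn => not_not.2 (h2 n hn)⟩
      rw [this]
      exact ⟨hs, h2, h3⟩
    refine Finset.card_le_card_of_injOn (fun x => (st x, fun t : Fin (wk k) => x (st x + t))) ?_ ?_
    · intro x hx
      rw [Finset.mem_coe, Finset.mem_product]
      exact ⟨Finset.mem_range.2 (hst x hx).1, Finset.mem_univ _⟩
    · intro x hx y hy hxy
      by_contra hne
      obtain ⟨t, ht, hf⟩ := hfar x (Finset.mem_filter.1 hx).1 y (Finset.mem_filter.1 hy).1 hne
      obtain ⟨-, x1, x2⟩ := hst x hx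
      obtain ⟨-, y1, y2⟩ := hst y hy
      obtain ⟨e1, e2⟩ := Prod.mk.inj hxy
      apply hf.1
      rcases lt_or_ge t (st x) with h | h
      · rw [x1 t h, y1 t (by rw [← e1]; exact h)]
      · rcases lt_or_ge t (st x + wk k) with h' | h'
        · have := congrFun e2 ⟨t - st x, by omega⟩
          simp only at this
          rw [← e1, Nat.add_sub_cancel' h] at this
          exact this
        · rw [x2 t h', y2 t (by rw [← e1]; exact h')]
  have b4 : (441 : ℕ) ^ wk k ≤ 14 ^ T := by
    calc (441 : ℕ) ^ wk k ≤ (14 ^ 3) ^ wk k := Nat.pow_le_pow_left (by norm_num) _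
      _ = 14 ^ (3 * wk k) := by rw [← pow_mul]
      _ ≤ 14 ^ T := by
        apply Nat.pow_le_pow_right (by norm_num)
        rw [hT]
        unfold wk nk mm
        have e1 : (64 : ℕ) ^ (2 * k + 1) = 64 ^ (2 * k) * 64 := by rw [pow_succ]
        have e2 : (64 : ℕ) ^ (2 * (k + 1)) = 64 ^ (2 * k) * 4096 := by
          rw [show 2 * (k + 1) = 2 * k + 2 by ring, pow_add]; norm_num
        rw [e1, e2]
        omega
  have b5 : (13 : ℕ) ^ T ≤ 14 ^ T := Nat.pow_le_pow_left (by norm_num) _
  calc E.card ≤ (E₁ ∪ E₂ ∪ E₃).card := Finset.card_le_card hcov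
    _ ≤ E₁.card + E₂.card + E₃.card := (Finset.card_union_le _ _).trans
        (Nat.add_le_add_right (Finset.card_union_le _ _) _)
    _ ≤ 14 ^ T + 14 ^ T + T * 14 ^ T := by
        have := Nat.mul_le_mul_left T b4
        omega
    _ = (T + 2) * 14 ^ T := by ring

/-! ### The growth rates -/

/-- the rate -/
noncomputable def rate (T : ℕ) : ℝ := Real.log (sep 2 X 1 T) / T

lemma rate_nonneg (T : ℕ) : 0 ≤ rate T :=
  div_nonneg (Real.log_natCast_nonneg _) (Nat.cast_nonneg _)

lemma rate_le (T : ℕ) : rate T ≤ Real.log 441 := by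
  unfold rate
  rcases Nat.eq_zero_or_pos T with h | h
  · subst h
    rw [Nat.cast_zero, div_zero]
    exact Real.log_nonneg (by norm_num)
  · have hT : (0 : ℝ) < T := by exact_mod_cast h
    rw [div_le_iff₀ hT, mul_comm, ← Real.log_pow]
    rcases Nat.eq_zero_or_pos (sep 2 X 1 T) with h0 | h0
    · rw [h0, Nat.cast_zero, Real.log_zero]
      exact Real.log_nonneg (one_le_pow₀ (by norm_num))
    · apply Real.log_le_log (by exact_mod_cast h0)
      exact_mod_cast sep_le_pow T

lemma tendsto_mm : Tendsto (fun k => mm (k + 1)) atTop atTop := by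
  have h1 : Tendsto (fun n : ℕ => 64 ^ n) atTop atTop :=
    tendsto_pow_atTop_atTop_of_one_lt (by norm_num)
  have h2 : Tendsto (fun k : ℕ => 2 * (k + 1)) atTop atTop :=
    tendsto_atTop_mono (fun k => by simp only [id]; omega) tendsto_id
  exact h1.comp h2

lemma tendsto_wk : Tendsto wk atTop atTop := by
  refine tendsto_atTop_mono (fun k => ?_) tendsto_id
  unfold wk mm
  have : 2 * k < 64 ^ (2 * k) := Nat.lt_pow_self (by norm_num)
  simp only [id]
  omega

lemma log_small {δ : ℝ} (hδ : 0 < δ) : ∀ᶠ T : ℕ in atTop, Real.log (T + 2) ≤ δ * T := by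
  have h := Real.isLittleO_log_id_atTop.def (half_pos hδ)
  have ht : Tendsto (fun T : ℕ => (T : ℝ) + 2) atTop atTop :=
    tendsto_atTop_add_const_right _ _ tendsto_natCast_atTop_atTop
  filter_upwards [ht.eventually h, eventually_ge_atTop 2] with T h1 h2
  have h3 : (2 : ℝ) ≤ T := by exact_mod_cast h2
  simp only [id, Real.norm_eq_abs] at h1
  rw [abs_of_nonneg (show (0 : ℝ) ≤ T + 2 by positivity)] at h1
  have h4 := (le_abs_self _).trans h1
  nlinarith

lemma freq_low {δ : ℝ} (hδ : 0 < δ) : ∃ᶠ T in atTop, rate T ≤ Real.log 14 + δ := by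
  refine tendsto_mm.frequently (Eventually.frequently ?_)
  filter_upwards [tendsto_mm.eventually (log_small hδ)] with k hk
  have hT : (0 : ℝ) < mm (k + 1) := by unfold mm; positivity
  unfold rate
  rw [div_le_iff₀ hT]
  rcases Nat.eq_zero_or_pos (sep 2 X 1 (mm (k + 1))) with h0 | h0
  · rw [h0, Nat.cast_zero, Real.log_zero]
    have : 0 ≤ Real.log 14 := Real.log_nonneg (by norm_num)
    positivity
  · have h1 : (sep 2 X 1 (mm (k + 1)) : ℝ) ≤ ((mm (k + 1) : ℝ) + 2) * 14 ^ mm (k + 1) := by
      exact_mod_cast sep_le k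
    have h2 := Real.log_le_log (by exact_mod_cast h0) h1
    rw [Real.log_mul (by positivity) (by positivity), Real.log_pow] at h2
    linarith

lemma freq_high : ∃ᶠ T in atTop, 64 / 129 * Real.log 220 ≤ rate T := by
  refine tendsto_wk.frequently (Frequently.of_forall fun k => ?_)
  have e1 : nk k = 64 ^ (2 * k) * 64 := by unfold nk; rw [pow_succ]
  have e2 : wk k = 64 ^ (2 * k) * 129 := by unfold wk mm; rw [e1]; ring
  have hT : (0 : ℝ) < wk k := by rw [e2]; positivity
  unfold rate
  rw [le_div_iff₀ hT]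
  have h1 : ((220 : ℝ) ^ nk k) ≤ sep 2 X 1 (wk k) := by exact_mod_cast le_sep k
  have h2 := Real.log_le_log (by positivity) h1
  rw [Real.log_pow] at h2
  refine le_trans (le_of_eq ?_) h2
  rw [e1, e2]
  push_cast
  ring

/-- There are a finite alphabet with a metric `d`, a one-sided subshift `X` and an integer `k > 1`
such that `D` is a metric on `X` and `(S_ε)` fails for `ε = 1`. -/
theorem result : ∃ (A : Type) (_ : Fintype A) (_ : MetricSpace A) (X : Set (ℕ → A)) (k : ℕ)
    (ε : ℝ), IsSubshift X ∧ 1 < k ∧ IsMetricOn k X ∧ 0 < ε ∧ ¬ PropS k X ε := by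
  refine ⟨A, inferInstance, inferInstance, X, 2, 1, X_subshift, by norm_num, D_metric X,
    one_pos, ?_⟩
  have hnum : Real.log 14 < 64 / 129 * Real.log 220 := by
    have h1 : (129 : ℝ) * Real.log 14 < 64 * Real.log 220 := by
      have h2 : Real.log ((14 : ℝ) ^ 129) < Real.log ((220 : ℝ) ^ 64) :=
        Real.log_lt_log (by positivity) (by norm_num)
      rw [Real.log_pow, Real.log_pow] at h2
      exact_mod_cast h2
    linarith
  set b := 64 / 129 * Real.log 220 with hb
  set δ := (b - Real.log 14) / 2 with hδ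
  have hδ0 : 0 < δ := by rw [hδ]; linarith
  have h1 : liminf rate atTop ≤ Real.log 14 + δ :=
    liminf_le_of_frequently_le (freq_low hδ0) (isBoundedUnder_of ⟨0, rate_nonneg⟩)
  have h2 : b ≤ limsup rate atTop :=
    le_limsup_of_frequently_le freq_high (isBoundedUnder_of ⟨Real.log 441, rate_le⟩)
  intro h
  change liminf rate atTop = limsup rate atTop at h
  have : Real.log 14 + δ < b := by rw [hδ]; linarith
  linarith

end Pool.Agent.Results.MP_6f7bab_an.SepNoLimit
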